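import Mathlib
import Pool.Agent.N773.AD.Size
import Pool.Agent.Results.MP_8dbee4_ag.AllPrimes

/-!
# MP_8dbee4_ag: the degrees of curves on very general complete intersections of almost all degrees

Let `X ⊆ ℙ^(n+r)` be a very general complete intersection of `r` hypersurfaces of degrees `d_1, …, d_r`,
`dim X = n`. The question is whether `d_1 ⋯ d_r` divides the degrees of all curves on `X` if all `d_i`
are large. We show, for every `0 < ε < 1`, that there are numbers `Q(n, r)` with the following properties.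

1. For all but the proportion `exp (-r ^ (ε / 4))` of the degree tuples in EVERY box of side `N ≥ r`
   (`r ≥ r₂(ε)`, at any place, so the degrees can be arbitrarily large) and for ALL dimensions `n ≥ 1` the
   number `Q(n, r)` divides the degrees of all curves on `X`.
2. For fixed `n` and all large `r` one has `Q(n, r) ≥ r ^ ((1 - 3 ε) r / n)`, and `Q(n, r)` is divisible by
   ALL integers `q ≤ r ^ (1 - ε)`. If all `d_i ≤ r ^ c` then `Q(n, r) ≥ (d_1 ⋯ d_r) ^ ((1 - 3 ε) / (c n))`, so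
   for almost all tuples of such degrees the degrees of all curves are divisible by a fixed power of the
   size of the conjectured divisor `d_1 ⋯ d_r`.
3. Uniformly in the dimension, `Q(n, r) ≥ (r ^ (1 - ε) / n²) ^ ((1 - ε) r / n)` for all `n² ≤ r ^ (1 - ε)`.

The starting results of this page (here `AllPrimes`) are about the degree tuples whose product is
divisible by high powers of the primes. By the exponential moment method almost all tuples of a large
number `r` of degrees are of this kind for all primes `p ≤ r ^ (1 - ε / 2)` at the same time: the number of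
the `d_i` divisible by `p` is at least `(1 - ε / 2) r / p`; the size of the resulting common divisor is
given by Mertens' theorem.
-/

set_option autoImplicit false

namespace Pool.Agent.Results.MP_8dbee4_ag.AlmostAllDegrees

/-- the Hilbert function of the ideal `I` of `ℂ[x_0, …, x_m]` -/
noncomputable def hilbert {m : ℕ} (I : Ideal (MvPolynomial (Fin (m + 1)) ℂ)) (k : ℕ) : ℕ :=
  Module.finrank ℂ (Submodule.map (Ideal.Quotient.mkₐ ℂ I).toLinearMap
    (MvPolynomial.homogeneousSubmodule (Fin (m + 1)) ℂ k))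

/-- `I` is the ideal of an integral curve in `ℙ^m`: a homogeneous prime ideal with `dim ℂ[x] / I = 2` -/
def IsCurve {m : ℕ} (I : Ideal (MvPolynomial (Fin (m + 1)) ℂ)) : Prop :=
  (∀ p ∈ I, ∀ k : ℕ, MvPolynomial.homogeneousComponent k p ∈ I) ∧ I.IsPrime ∧
    ringKrullDim (MvPolynomial (Fin (m + 1)) ℂ ⧸ I) = 2

/-- `Q` divides the degree of the curve `I`: it divides the difference of the values of the Hilbert
function at `k + 1` and at `k` for all large `k` -/
def DividesDegree {m : ℕ} (Q : ℕ) (I : Ideal (MvPolynomial (Fin (m + 1)) ℂ)) : Prop :=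
  ∃ K : ℕ, ∀ k : ℕ, K ≤ k → (Q : ℤ) ∣ (hilbert I (k + 1) : ℤ) - (hilbert I k : ℤ)

/-- The number `Q` divides the degree of every curve on a very general complete intersection of degrees
`d_1, …, d_r` in `ℙ^(n+r)` over `ℂ`: there are countably many nonzero polynomials `bad j` in the
coefficients of `r` forms of these degrees such that for all forms `f_1, …, f_r` at which no `bad j`
vanishes `Q` divides the degree of every integral curve on `f_1 = ⋯ = f_r = 0`. -/
def DividesCurveDegrees (n r : ℕ) (d : Fin r → ℕ) (Q : ℕ) : Prop :=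
  ∃ bad : ℕ → MvPolynomial (Σ i : Fin r, {μ : Fin (n + r + 1) →₀ ℕ // μ.degree = d i}) ℂ,
    (∀ j, bad j ≠ 0) ∧
    ∀ f : Fin r → MvPolynomial (Fin (n + r + 1)) ℂ,
      (∀ i, f i ∈ MvPolynomial.homogeneousSubmodule (Fin (n + r + 1)) ℂ (d i)) →
      (∀ j, MvPolynomial.eval (fun x => MvPolynomial.coeff x.2.1 (f x.1)) (bad j) ≠ 0) →
      ∀ I : Ideal (MvPolynomial (Fin (n + r + 1)) ℂ), IsCurve I → (∀ i, f i ∈ I) →
        DividesDegree Q I

/-- For `r ≥ r₂`, every `N ≥ r` and every box `∏ (A_i, A_i + N]` all degree tuples `d` in the box but at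
most `exp (-r ^ (ε / 4)) N ^ r` are such that for all `n ≥ 1` the number `Q n r` divides the degrees of all
curves on a very general complete intersection of degrees `d_1, …, d_r` in `ℙ^(n+r)`. -/
def AlmostAll (ε : ℝ) (Q : ℕ → ℕ → ℕ) : Prop :=
  ∃ r₂ : ℕ, ∀ r : ℕ, r₂ ≤ r → ∀ N : ℕ, r ≤ N → ∀ A : Fin r → ℕ,
    ∃ Ex : Finset (Fin r → ℕ),
      (Ex.card : ℝ) ≤ Real.exp (-(r : ℝ) ^ (ε / 4)) * (N : ℝ) ^ r ∧
      ∀ d : Fin r → ℕ, (∀ i, A i < d i ∧ d i ≤ A i + N) → d ∉ Ex →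
        ∀ n : ℕ, 1 ≤ n → DividesCurveDegrees n r d (Q n r)

/-- For every `n ≥ 1` and `r ≥ r₁(n)` all integers `1 ≤ q ≤ r ^ (1 - ε)` divide `Q n r`, and
`Q n r ≥ r ^ ((1 - 3 ε) r / n)`, and `Q n r ≥ (d_1 ⋯ d_r) ^ ((1 - 3 ε) / (c n))` whenever `1 ≤ d_i ≤ r ^ c`,
`c ≥ 1`. -/
def FixedDimension (ε : ℝ) (Q : ℕ → ℕ → ℕ) : Prop :=
  ∀ n : ℕ, 1 ≤ n → ∃ r₁ : ℕ, ∀ r : ℕ, r₁ ≤ r →
    (∀ q : ℕ, 1 ≤ q → (q : ℝ) ≤ (r : ℝ) ^ (1 - ε) → q ∣ Q n r) ∧
    (r : ℝ) ^ ((1 - 3 * ε) * r / n) ≤ Q n r ∧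
    ∀ c : ℝ, 1 ≤ c → ∀ d : Fin r → ℕ, (∀ i, 1 ≤ d i ∧ (d i : ℝ) ≤ (r : ℝ) ^ c) →
      ((∏ i, d i : ℕ) : ℝ) ^ ((1 - 3 * ε) / (c * n)) ≤ Q n r

/-- For `r ≥ r₀` and all `n ≥ 1` with `n² ≤ r ^ (1 - ε)` one has
`Q n r ≥ (r ^ (1 - ε) / n²) ^ ((1 - ε) r / n)`. -/
def UniformSize (ε : ℝ) (Q : ℕ → ℕ → ℕ) : Prop :=
  ∃ r₀ : ℕ, ∀ r : ℕ, r₀ ≤ r → ∀ n : ℕ, 1 ≤ n → (n : ℝ) ^ 2 ≤ (r : ℝ) ^ (1 - ε) →
    ((r : ℝ) ^ (1 - ε) / (n : ℝ) ^ 2) ^ ((1 - ε) * r / n) ≤ Q n r

/-- **Curves on complete intersections of almost all degrees.** For `0 < ε < 1` there are numbers `Q n r`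
which divide the degrees of all curves on a very general complete intersection, for almost all degree
tuples and all dimensions (`AlmostAll`), and which are large (`FixedDimension`, `UniformSize`) and, in
fixed dimension, divisible by all integers up to `r ^ (1 - ε)`. -/
theorem result (ε : ℝ) (hε : 0 < ε) (hε1 : ε < 1) :
    ∃ Q : ℕ → ℕ → ℕ, AlmostAll ε Q ∧ FixedDimension ε Q ∧ UniformSize ε Q := by
  refine ⟨Pool.Agent.N773.AD.QQ ε, ?_, fun n hn => ?_, Pool.Agent.N773.AD.size ε hε hε1⟩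
  · obtain ⟨r₂, h⟩ := Pool.Agent.N773.AD.almost_all ε hε hε1
    refine ⟨r₂, fun r hr N hN A => ?_⟩
    obtain ⟨Ex, h1, h2⟩ := h r hr N hN A
    refine ⟨Ex, h1, fun d hd hdE n hn => ?_⟩
    have h3 := h2 d hd hdE
    obtain ⟨bad, hbad, hmain⟩ := Pool.Agent.Results.MP_8dbee4_ag.AllPrimes.result n r hn d
    refine ⟨bad, hbad, fun f hf hfb I hI hfI => ?_⟩
    exact hmain f hf hfb I hI.1 hI.2.1 hI.2.2 hfI 2 (Pool.Agent.N773.AD.QQ ε n r) le_rfl
      (Nat.pos_of_ne_zero (Pool.Agent.N773.AD.QQ_ne ε n r)) (fun p hp _ => hp.two_le)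
      (Or.inl fun p hp hpQ => Pool.Agent.N773.AD.cond ε n r hn _ h3 p hp hpQ)
  · obtain ⟨r₁, h1⟩ := Pool.Agent.N773.AD.all_q ε hε hε1 n hn
    obtain ⟨r₁', h2⟩ := Pool.Agent.N773.AD.fixed ε hε hε1 n hn
    exact ⟨max r₁ r₁', fun r hr => ⟨h1 r ((le_max_left _ _).trans hr),
      h2 r ((le_max_right _ _).trans hr)⟩⟩

end Pool.Agent.Results.MP_8dbee4_ag.AlmostAllDegrees
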